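import Pool.Agent.SHA.StmtsB

/-! SHA part B, row B_SYC: the complement of an exact system. -/

set_option autoImplicit false

namespace Pool.Agent.SHA.H09

open Pool.Agent.SHA

theorem syc : SYCStmt := by
  intro a ρ hρ hS
  obtain ⟨ι, κ, hι, hκ, R, m, y, hc, hR, hm, hy, h1, h2, h3⟩ := hS
  have hp : 0 < ρ - 1 := by linarith
  have hne : ρ - 1 ≠ 0 := hp.ne'
  have htm : ∑ i, m i = ρ := by rw [total_mass h1 h2, h3]
  refine ⟨ι, κ, hι, hκ, fun i j => 1 - R i j, fun i => m i / (ρ - 1), fun j => y j / (ρ - 1), hc,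
    ?_, ?_, ?_, ?_, ?_, ?_⟩
  · intro i j
    rcases hR i j with h | h
    · right
      show 1 - R i j = 1
      rw [h, sub_zero]
    · left
      show 1 - R i j = 0
      rw [h, sub_self]
  · intro i
    exact div_nonneg (hm i) hp.le
  · intro j
    exact div_nonneg (hy j) hp.le
  · intro j
    have e : ∀ i, m i / (ρ - 1) * (1 - R i j) = (m i - m i * R i j) / (ρ - 1) := by
      intro i
      ring
    calc ∑ i, m i / (ρ - 1) * (1 - R i j) = ∑ i, (m i - m i * R i j) / (ρ - 1) :=
          Finset.sum_congr rfl fun i _ => e i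
      _ = (∑ i, (m i - m i * R i j)) / (ρ - 1) := by rw [Finset.sum_div]
      _ = 1 := by
          rw [Finset.sum_sub_distrib, htm, h1 j, div_self hne]
  · intro i
    have e : ∀ j, (1 - R i j) * (y j / (ρ - 1)) = (y j - R i j * y j) / (ρ - 1) := by
      intro j
      ring
    calc ∑ j, (1 - R i j) * (y j / (ρ - 1)) = ∑ j, (y j - R i j * y j) / (ρ - 1) :=
          Finset.sum_congr rfl fun j _ => e j
      _ = (∑ j, (y j - R i j * y j)) / (ρ - 1) := by rw [Finset.sum_div]
      _ = 1 := by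
          rw [Finset.sum_sub_distrib, h3, h2 i, div_self hne]
  · show ∑ j, y j / (ρ - 1) = ρ / (ρ - 1)
    rw [← Finset.sum_div, h3]

end Pool.Agent.SHA.H09
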